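import Pool.Agent.helper7.ZB.SpecT

/-!
# Row zb:ZFE (MP_baa4d7_al): the blocks of `nz E`, `E ≤ R₁`
-/

set_option autoImplicit false

namespace Pool.Agent.ZB

open Pool.Agent.helper58.DC Pool.Agent.DI Pool.Agent.GR Pool.Agent.OB Pool.Agent.DR Pool.Agent.FI Pool.Agent.FI3 Pool.Agent.FI4 Pool.Agent.FI4I Pool.Agent.LE Pool.Agent.L5 Pool.Agent.NAB

theorem ZFE_cjS {G : Type} [Group G] {E : Subgroup G} {h : G} : h ∈ nz E ↔ cjS h E = E := by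
  constructor
  · intro hh
    have h1 := Subgroup.mem_normalizer_iff.1 hh
    ext x
    rw [mem_cjS]
    have e1 : h * (h⁻¹ * x * h) * h⁻¹ = x := by group
    have h2 := h1 (h⁻¹ * x * h)
    rw [e1] at h2
    exact h2
  · intro hh
    refine Subgroup.mem_normalizer_iff.2 fun y => ?_
    have e1 : h⁻¹ * (h * y * h⁻¹) * h = y := by group
    constructor
    · intro hy
      have h2 : h * y * h⁻¹ ∈ cjS h E := by
        rw [mem_cjS, e1]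
        exact hy
      rw [hh] at h2
      exact h2
    · intro hy
      have h2 : h * y * h⁻¹ ∈ cjS h E := by
        rw [hh]
        exact hy
      rw [mem_cjS, e1] at h2
      exact h2

/-- a subgroup `N` with `N ≤ nz P` normalises `N ⊓ cz P` -/
theorem ZFE_nz {G : Type} [Group G] {P N : Subgroup G} (hNP : N ≤ nz P) : N ≤ nz (N ⊓ cz P) := by
  intro g hg
  rw [Subgroup.mem_normalizer_iff]
  have key : ∀ g' ∈ N, ∀ x ∈ N ⊓ cz P, g' * x * g'⁻¹ ∈ N ⊓ cz P := by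
    intro g' hg' x hx
    exact ⟨N.mul_mem (N.mul_mem hg' hx.1) (N.inv_mem hg'), cz_conj (hNP hg') hx.2⟩
  intro x
  refine ⟨fun hx => key g hg x hx, fun hx => ?_⟩
  have h1 := key g⁻¹ (N.inv_mem hg) _ hx
  have h2 : g⁻¹ * (g * x * g⁻¹) * g⁻¹⁻¹ = x := by group
  rwa [h2] at h1

/-- a defect group of a character of `N`, `P ≤ N ≤ nz P`, contains the `p`-group `P` -/
theorem ZFE_cont (hCFA : CFA_stmt) (hNFV : NFV_stmt) (hCNTL : CNTL_stmt) {p : ℕ}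
    {M : Ideal (integralClosure ℤ ℂ)} (hM : Setup p M) {G : Type} [Group G] [Finite G] {P N : Subgroup G}
    (hP : IsPGroup p P) (hPN : P ≤ N) (hNP : N ≤ nz P) {φ : G → ℂ} (hφ : φ ∈ IrrOn N) {Q : Subgroup G} {y : G}
    (hQ : DefL p M N φ Q y) : P ≤ Q := by
  obtain ⟨ψ₀, hψ₀, n, hn, hO⟩ := (hCFA G (N ⊓ cz P) N inf_le_left (ZFE_nz hNP)).1 φ hφ
  have hSB : SB M N φ ψ₀ := hNFV p M hM G P N hP hPN hNP φ hφ ψ₀ hψ₀ n hn hO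
  obtain ⟨l, hl, hlQ⟩ := hCNTL p M hM G N P hP hPN ψ₀ hψ₀ φ hSB.symm Q y hQ
  intro r hr
  have hl' : l⁻¹ ∈ nz P := (nz P).inv_mem (hNP hl)
  have h1 : l⁻¹ * r * l⁻¹⁻¹ ∈ P := (Subgroup.mem_normalizer_iff.1 hl' r).1 hr
  have h2 := hlQ _ h1
  have h3 : l * (l⁻¹ * r * l⁻¹⁻¹) * l⁻¹ = r := by group
  rwa [h3] at h2

theorem ZFE_czle {G : Type} [Group G] {P Q : Subgroup G} (h : P ≤ Q) : cz Q ≤ cz P :=
  Subgroup.centralizer_le h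

theorem ZFE_cznz {G : Type} [Group G] (P : Subgroup G) : cz P ≤ nz P :=
  Subgroup.centralizer_le_normalizer _

theorem ZFE (hZUH : ZUH_stmt) (hZUB : ZUB_stmt) (hZUE : ZUE_stmt) (hZE1 : ZE1_stmt) (hZE2 : ZE2_stmt) (hDEX : Pool.Agent.FI.DEX_stmt) (hCNTL : CNTL_stmt) (hCFA : CFA_stmt) (hNFV : NFV_stmt) (hNOB : NOB_stmt) (hTRN : Pool.Agent.FI.TRN_stmt) (hCJG : CJG_stmt) (hTPR : Pool.Agent.FI.TPR_stmt) : ZFE_stmt := by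
  intro p κ M hM G _ _ χ hχ D x hD hK R₁ hR₁ hcomm hRn hER ψ₁ hψ₁ hψχ Q y hQ hKQ hEQ
  have hχ' : χ ∈ IrrOn (⊤ : Subgroup G) := by
    rw [(hTPR p M hM G).1]
    exact hχ
  obtain ⟨-, ⟨-, -, -, hEp, -⟩, -⟩ := hZE1 p hM.pr κ G D hK
  set E : Subgroup G := EQ p κ.s D with hE
  have hRK : R₁ ≤ cz R₁ := by
    intro r hr
    rw [Subgroup.mem_centralizer_iff]
    intro s hs
    exact hcomm s hs r hr
  have hKH : cz R₁ ≤ nz E := (ZFE_czle hER).trans (ZFE_cznz E)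
  have hψH : ∀ y, y ∉ nz E → ψ₁ y = 0 := fun y hy => hψ₁.1 y fun h => hy (hKH h)
  -- defect groups of characters of `K` and `H`
  have hcK : ∀ ψ ∈ IrrOn (cz R₁), ∀ (Q' : Subgroup G) (y' : G), DefL p M (cz R₁) ψ Q' y' → cz Q' ≤ cz R₁ :=
    fun ψ hψ Q' y' h' => ZFE_czle (ZFE_cont hCFA hNFV hCNTL hM hR₁ hRK (ZFE_cznz R₁) hψ h')
  have hcH : ∀ φ ∈ IrrOn (nz E), ∀ (Q' : Subgroup G) (y' : G), DefL p M (nz E) φ Q' y' → cz Q' ≤ nz E :=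
    fun φ hφ Q' y' h' => (ZFE_czle (ZFE_cont hCFA hNFV hCNTL hM hEp Subgroup.le_normalizer le_rfl hφ h')).trans
      (ZFE_cznz E)
  ext φ
  constructor
  · rintro ⟨hφ, hφψ⟩
    have hφχ : SB M (⊤ : Subgroup G) φ χ :=
      ((hTRN G M (nz E) ⊤ le_top φ ψ₁ χ hφ.1 hψH hφψ).2).1 hψχ
    obtain ⟨Q₂, y₂, hQ₂, -⟩ := hDEX p M hM G (nz E) φ hφ
    obtain ⟨hKQ₂, -⟩ := hZUH p κ M hM G ⊤ (nz E) le_top χ hχ' D x hD hK φ hφ hφχ Q₂ y₂ hQ₂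
      (inf_le_right.trans (hcH φ hφ Q₂ y₂ hQ₂))
    obtain ⟨-, l, hl, -, hl2⟩ := hZUH p κ M hM G (nz E) (cz R₁) hKH φ hφ Q₂ y₂ hQ₂ hKQ₂ ψ₁ hψ₁ hφψ.symm Q y hQ
      (inf_le_right.trans (hcK ψ₁ hψ₁ Q y hQ))
    refine ⟨hφ, hφχ, Q₂, y₂, hQ₂, hKQ₂, ?_⟩
    rw [hl2, hEQ]
    exact ZFE_cjS.1 hl
  · rintro ⟨hφ, hφχ, Q₂, y₂, hQ₂, hKQ₂, hEQ₂⟩
    refine ⟨hφ, ?_⟩
    have hnK : nz (cz R₁) = ⊤ := by
      have h1 := ZFE_nz (P := R₁) (N := ⊤) (by rw [hRn])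
      rw [top_inf_eq] at h1
      exact top_le_iff.1 h1
    obtain ⟨ψ', hψ', n, hn, hover⟩ := (hCFA G (cz R₁) (nz E) hKH (by rw [hnK]; exact le_top)).1 φ hφ
    have e1 : nz E ⊓ cz R₁ = cz R₁ := inf_eq_right.mpr hKH
    have hφψ' : SB M (nz E) φ ψ' := by
      refine hNFV p M hM G R₁ (nz E) hR₁ (hRK.trans hKH) (by rw [hRn]; exact le_top) φ hφ ψ' ?_ n hn ?_
      · rw [e1]
        exact hψ'
      · rw [e1]
        exact hover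
    have hψ'H : ∀ y, y ∉ nz E → ψ' y = 0 := fun y hy => hψ'.1 y fun h => hy (hKH h)
    obtain ⟨Q', y', hQ', -⟩ := hDEX p M hM G (cz R₁) ψ' hψ'
    obtain ⟨hKQ', l, hl, -, hl2⟩ := hZUH p κ M hM G (nz E) (cz R₁) hKH φ hφ Q₂ y₂ hQ₂ hKQ₂ ψ' hψ' hφψ'.symm Q' y' hQ'
      (inf_le_right.trans (hcK ψ' hψ' Q' y' hQ'))
    have hEQ' : EQ p κ.s Q' = E := by
      have h1 : cjS l (EQ p κ.s Q') = cjS l E := by
        rw [← hl2, hEQ₂]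
        exact (ZFE_cjS.1 hl).symm
      ext w
      have h2 := congrArg (fun S : Subgroup G => l * w * l⁻¹ ∈ S) h1
      simp only [mem_cjS] at h2
      have h3 : l⁻¹ * (l * w * l⁻¹) * l = w := by group
      rw [h3] at h2
      exact iff_of_eq h2
    have hφψ'T : SB M (⊤ : Subgroup G) φ ψ' :=
      (hTRN G M (nz E) ⊤ le_top φ ψ' ψ' hφ.1 hψ'H hφψ').1
    have hψψ' : SB M (⊤ : Subgroup G) ψ₁ ψ' := (hψχ.trans hφχ.symm).trans hφψ'T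
    obtain ⟨g, -, hg⟩ := hNOB p M hM G (cz R₁) ⊤ le_top (by rw [hnK]) ψ₁ hψ₁ ψ' hψ' hψψ'
    have hgK : cjS g (cz R₁) = cz R₁ := ZFE_cjS.1 (by rw [hnK]; exact Subgroup.mem_top g)
    have hUg := (hZUB p M hM G (cz R₁) ψ' _ _ hQ').2.1 g
    rw [hgK] at hUg
    have hUg' := (hZUB p M hM G (cz R₁) (cjF g ψ') _ _ hUg).1 ψ₁ hg
    obtain ⟨k, hk, -, hkE, -⟩ := hZUE p κ M hM G (cz R₁) ψ₁ hψ₁ Q y _ _ hQ hUg' hKQ
    rw [((hZE2 p hM.pr κ G Q' hKQ').2.2 g).2, hEQ', hEQ, ZFE_cjS.1 (hKH hk)] at hkE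
    have hgH : g ∈ nz E := ZFE_cjS.2 hkE
    have h1 : SB M (nz E) (cjF g ψ') ψ' := ((hCJG G M p g (nz E)).2.2.2.2.2.1 hgH ψ').1
    have hgψ' : cjF g ψ' ∈ IrrOn (cz R₁) := by
      have h2 := (hCJG G M p g (cz R₁)).1 ψ' hψ'
      have h3 : (cz R₁).map (MulAut.conj g).toMonoidHom = cz R₁ := hgK
      rw [h3] at h2
      exact h2
    have h2 : SB M (nz E) (cjF g ψ') ψ₁ :=
      (hTRN G M (cz R₁) (nz E) hKH (cjF g ψ') ψ₁ ψ₁ hgψ'.1 hψ₁.1 hg).1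
    exact (hφψ'.trans h1.symm).trans h2

end Pool.Agent.ZB
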