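import Pool.Agent.helper7.ZB.SpecT

/-!
# Row zb:ZMF (MP_baa4d7_al): the claim if `E ≤ R`, `R` a normal `p`-subgroup
-/

set_option autoImplicit false

namespace Pool.Agent.ZB

open Pool.Agent.helper58.DC Pool.Agent.DI Pool.Agent.GR Pool.Agent.OB Pool.Agent.DR Pool.Agent.FI Pool.Agent.FI3 Pool.Agent.FI4 Pool.Agent.FI4I Pool.Agent.LE Pool.Agent.L5 Pool.Agent.NAB

theorem ZMF_nz {G : Type} [Group G] {R : Subgroup G} (h : nz R = ⊤) : nz (R ⊓ cz R) = ⊤ := by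
  have key : ∀ g x : G, x ∈ R ⊓ cz R → g * x * g⁻¹ ∈ R ⊓ cz R := by
    intro g x hx
    have hg : g ∈ nz R := by
      rw [h]
      exact Subgroup.mem_top g
    exact ⟨(Subgroup.mem_normalizer_iff.1 hg x).1 hx.1, Pool.Agent.FI.cz_conj hg hx.2⟩
  rw [eq_top_iff]
  intro g _
  rw [Subgroup.mem_normalizer_iff]
  intro x
  constructor
  · exact fun hx => key g x hx
  · intro hx
    have h1 := key g⁻¹ _ hx
    have h2 : g⁻¹ * (g * x * g⁻¹) * g⁻¹⁻¹ = x := by group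
    rwa [h2] at h1

theorem ZMF (hNOP : NOP_stmt) (hNFR : NFR_stmt) (hNEG : NEG_stmt) (hNDG : NDG_stmt) (hZE1 : ZE1_stmt)
    (hZFA : ZFA_stmt) (hZFS : ZFS_stmt) (hZFE : ZFE_stmt) (hTPR : Pool.Agent.FI.TPR_stmt) : ZMF_stmt := by
  intro p κ M hM G _ _ χ hχ D x hD hK R hR hRn hER
  have hχ' : χ ∈ IrrOn (⊤ : Subgroup G) := by
    rw [(hTPR p M hM G).1]
    exact hχ
  obtain ⟨-, -, hz, -⟩ := hZE1 p hM.pr κ G D hK
  have hR₁ : IsPGroup p (R ⊓ cz R : Subgroup G) := hR.to_le inf_le_left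
  have hcom : ∀ a ∈ R ⊓ cz R, ∀ b ∈ R ⊓ cz R, a * b = b * a := by
    intro a ha b hb
    exact Subgroup.mem_centralizer_iff.1 hb.2 a ha.1
  have hnz := ZMF_nz hRn
  have hER₁ : EQ p κ.s D ≤ R ⊓ cz R := by
    refine le_inf hER fun y hy => ?_
    obtain ⟨z, hzD, hzc, hzy⟩ := hz y hy
    have h1 := hNDG p M hM G ⊤ χ hχ' D x hD z hzD hzc
    have h2 : z * x ∈ cz R := hNOP p M hM G χ hχ R hR hRn _ h1
    have hpz : PEl p z := by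
      obtain ⟨k, hk⟩ := hD.pg ⟨z, hzD⟩
      exact ⟨k, congrArg Subtype.val hk⟩
    have hco : z * x = x * z := Subgroup.mem_centralizer_singleton_iff.1 (hD.le hzD).2
    have h3 : z ∈ cz R := (((hNEG p 1 hM.pr G z).2.2.2.1 x hpz hD.reg hco (cz R)).2.2.2 h2).1
    rw [← hzy]
    exact Subgroup.pow_mem _ h3 _
  obtain ⟨ψ₁, hψ₁, hSB, Q, y, hQ, hKQ, hEQ⟩ := hZFA p κ M hM G χ hχ D x hD hK (R ⊓ cz R) hR₁ hcom hnz
  have hTT : TT M (R ⊓ cz R) ψ₁ ≤ nz (EQ p κ.s D) := by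
    have h := (hZFS p κ M hM G (R ⊓ cz R) ψ₁ hψ₁ Q y hQ hKQ (by rw [hEQ]; exact hER₁)).1
    rwa [hEQ] at h
  have h1 := hNFR p M hM G (R ⊓ cz R) hR₁ hcom hnz ψ₁ hψ₁ ⊤ le_top
  have h2 := hNFR p M hM G (R ⊓ cz R) hR₁ hcom hnz ψ₁ hψ₁ (nz (EQ p κ.s D)) hTT
  have h3 := hZFE p κ M hM G χ hχ D x hD hK (R ⊓ cz R) hR₁ hcom hnz hER₁ ψ₁ hψ₁ hSB Q y hQ hKQ hEQ
  have h4 : Bl M (⊤ : Subgroup G) χ = Bl M (⊤ : Subgroup G) ψ₁ := by
    ext φ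
    constructor
    · exact fun h => ⟨h.1, h.2.trans hSB.symm⟩
    · exact fun h => ⟨h.1, h.2.trans hSB⟩
  have h5 : Le p M (⊤ : Subgroup G) χ = Le p M (⊤ : Subgroup G) ψ₁ := by
    unfold Le
    rw [h4]
  have h6 : Le p M (nz (EQ p κ.s D)) ψ₁ =
      lQ p κ M (⊤ : Subgroup G) (nz (EQ p κ.s D)) (EQ p κ.s D) χ := by
    unfold Le lQ
    rw [h3]
  rw [h5, h1, ← h2, h6]

end Pool.Agent.ZB
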