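import Pool.Agent.helper7.ZB.SpecT

/-!
# Row zb:ZTM (MP_baa4d7_al): the toggle for all `E'`, normal chains
-/

set_option autoImplicit false

namespace Pool.Agent.ZB

open Pool.Agent.helper58.DC Pool.Agent.DI Pool.Agent.GR Pool.Agent.OB Pool.Agent.DR Pool.Agent.FI Pool.Agent.FI3 Pool.Agent.FI4 Pool.Agent.FI4I Pool.Agent.LE Pool.Agent.L5 Pool.Agent.NAB

theorem ZTM_nrm {G : Type} [Group G] (R : Subgroup G) : nrm {R} = nz R := by
  unfold nrm
  simp

theorem ZTM_comm {α β : Type} [Finite α] [Finite β] (S : Set α) (f : α → β → ℂ) :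
    ∑ᶠ a ∈ S, ∑ᶠ b, f a b = ∑ᶠ b, ∑ᶠ a ∈ S, f a b := by
  have := finsum_mem_comm f (Set.toFinite S) (Set.finite_univ (α := β))
  simpa only [finsum_mem_univ] using this

theorem ZTM_nch {G : Type} [Group G] {p : ℕ} {R : Subgroup G} (hR : IsPGroup p R) :
    NCh p ⊤ R ({R} : Finset (Subgroup G)) where
  ch :=
  { chain := by
      rw [Finset.coe_singleton]
      exact IsChain.singleton
    mem := Finset.mem_singleton_self R
    bot := fun Q hQ => (Finset.mem_singleton.1 hQ).ge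
    le := fun Q _ => le_top
    pg := fun Q hQ => by
      rw [Finset.mem_singleton.1 hQ]
      exact hR }
  nm := fun Q hQ Q' hQ' _ => by
    rw [Finset.mem_singleton.1 hQ, Finset.mem_singleton.1 hQ']
    exact Subgroup.le_normalizer

theorem ZTM_toggle {G : Type} [Group G] [Finite G] (p : ℕ) [Fact p.Prime] (hNTG : NTG_stmt)
    (hFNO : Pool.Agent.FI.FNO_stmt) (R E : Subgroup G) (g : Subgroup G → ℤ)
    (hR : IsPGroup p R) (hnR : nz R = ⊤) (hE : IsPGroup p E) (hER : ¬ E ≤ R)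
    (hg : ∀ K, ¬ E ≤ K → g K = 0) :
    ∑ᶠ C ∈ {C : Finset (Subgroup G) | NCh p ⊤ R C ∧ C ≠ {R}},
      (-1 : ℂ) ^ (C.card + 1) * (g (nrm C ⊓ nz E) : ℂ) = - (g (nz E) : ℂ) := by
  classical
  have : Fintype (Finset (Subgroup G)) := Fintype.ofFinite _
  have h := hNTG G p R E (fun K => (g K : ℂ)) hE hER
  have h' := hFNO G p ⊤ R (nz E) g hR le_top
  unfold cSum at h'
  rw [finsum_mem_def, finsum_eq_sum_of_fintype] at h ⊢
  rw [finsum_mem_def, finsum_eq_sum_of_fintype, finsum_mem_def, finsum_eq_sum_of_fintype] at h'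
  simp only [Set.indicator_apply, Set.mem_ofPred_eq] at h h' ⊢
  have h1 : nrm ({R} : Finset (Subgroup G)) = ⊤ := by rw [ZTM_nrm, hnR]
  have h0 : (∑ C : Finset (Subgroup G), if PCh p ⊤ R C then (-1 : ℤ) ^ (C.card + 1) * g (nz E ⊓ nrm C) else 0) = 0 := by
    have h2 : ((∑ C : Finset (Subgroup G), if PCh p ⊤ R C then (-1 : ℤ) ^ (C.card + 1) * g (nz E ⊓ nrm C) else 0 : ℤ) : ℂ) = 0 := by
      rw [← h]
      push_cast
      refine Finset.sum_congr rfl fun C _ => ?_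
      by_cases hP : PCh p ⊤ R C
      · by_cases hE : E ≤ nrm C
        · rw [if_pos hP, if_pos ⟨hP, hE⟩]
        · rw [if_pos hP, if_neg (fun h => hE h.2), hg _ (fun h => hE (h.trans inf_le_right))]
          simp
      · rw [if_neg hP, if_neg (fun h => hP h.1)]
    exact_mod_cast h2
  rw [h0] at h'
  have h3 : (∑ C : Finset (Subgroup G), if NCh p ⊤ R C then (-1 : ℂ) ^ (C.card + 1) * (g (nz E ⊓ nrm C) : ℂ) else 0) = 0 := by
    have h4 := congrArg (fun n : ℤ => (n : ℂ)) h'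
    simp only [Int.cast_zero, Int.cast_sum] at h4
    refine Eq.trans (Finset.sum_congr rfl fun C _ => ?_) h4.symm
    by_cases hP : NCh p ⊤ R C
    · rw [if_pos hP, if_pos hP]
      push_cast
      rfl
    · rw [if_neg hP, if_neg hP]
      simp
  have h2 : ∀ C : Finset (Subgroup G),
      (if NCh p ⊤ R C ∧ C ≠ {R} then (-1 : ℂ) ^ (C.card + 1) * (g (nrm C ⊓ nz E) : ℂ) else 0) =
      (if NCh p ⊤ R C then (-1 : ℂ) ^ (C.card + 1) * (g (nz E ⊓ nrm C) : ℂ) else 0) -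
        (if C = {R} then (g (nz E) : ℂ) else 0) := by
    intro C
    by_cases hC : C = {R}
    · subst hC
      rw [if_neg (fun h => h.2 rfl), if_pos rfl, if_pos (ZTM_nch hR), h1,
        Finset.card_singleton, inf_top_eq]
      norm_num
    · rw [if_neg hC, sub_zero]
      by_cases hP : NCh p ⊤ R C
      · rw [if_pos ⟨hP, hC⟩, if_pos hP, inf_comm]
      · rw [if_neg (fun h => hP h.1), if_neg hP]
  rw [Finset.sum_congr rfl (fun C _ => h2 C), Finset.sum_sub_distrib, h3, Finset.sum_ite_eq',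
    if_pos (Finset.mem_univ _), zero_sub]

theorem ZTM (hNTG : NTG_stmt) (hFNO : Pool.Agent.FI.FNO_stmt) (hZTC : ZTC_stmt) (hZTP : ZTP_stmt) (hZTL : ZTL_stmt) (hZBC : ZBC_stmt) (hLBN : LBN_stmt) (hZE1 : ZE1_stmt) (hTPR : Pool.Agent.FI.TPR_stmt) : ZTM_stmt := by
  intro p κ M hM G _ _ χ hχ D x hD hK R hR hnR hER
  have : Fact p.Prime := ⟨hM.pr⟩
  have hχ' : χ ∈ IrrOn (⊤ : Subgroup G) := by
    rw [(hTPR p M hM G).1]
    exact hχ
  obtain ⟨-, ⟨-, -, -, hEp, -⟩, -⟩ := hZE1 p hM.pr κ G D hK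
  -- the values of `lQ`
  have hne : ∀ E' K : Subgroup G, lQ p κ M (⊤ : Subgroup G) K E' χ ≠ 0 →
      ∃ η, η ∈ BQ p κ M (⊤ : Subgroup G) K E' χ := by
    intro E' K hne
    by_contra h0
    apply hne
    have h1 : BQ p κ M (⊤ : Subgroup G) K E' χ = ∅ := by
      rw [Set.eq_empty_iff_forall_notMem]
      exact fun η hη => h0 ⟨η, hη⟩
    unfold lQ
    rw [h1, finsum_mem_empty]
  have hle : ∀ E' K : Subgroup G, lQ p κ M (⊤ : Subgroup G) K E' χ ≠ 0 → E' ≤ K := by
    intro E' K h0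
    obtain ⟨η, h1, h2, Q, y, h3, h4, h5⟩ := hne E' K h0
    have he := hZE1 p hM.pr κ G Q h4
    rw [← h5]
    exact he.2.1.2.1.trans (h3.le.trans inf_le_left)
  have hint : ∀ E' K : Subgroup G, (ls p K (BQ p κ M (⊤ : Subgroup G) K E' χ) : ℂ) =
      lQ p κ M (⊤ : Subgroup G) K E' χ := fun E' K =>
    ((hLBN p M hM G K).1 _ (hZBC p κ M hM G ⊤ K E' le_top χ).2.2).1
  have h2 : ∀ E' : Subgroup G,
      ∑ᶠ C ∈ {C : Finset (Subgroup G) | NCh p ⊤ R C ∧ C ≠ {R}}, (-1 : ℂ) ^ (C.card + 1) *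
        ((Nat.card (nrm C ⊓ nz E' : Subgroup G) : ℂ) *
          lQ p κ M (⊤ : Subgroup G) (nrm C ⊓ nz E') E' χ) =
      - ((Nat.card (nz E' : Subgroup G) : ℂ) * lQ p κ M (⊤ : Subgroup G) (nz E') E' χ) := by
    intro E'
    by_cases hz : ∃ g : G, E' = cjS g (EQ p κ.s D)
    · obtain ⟨g, hg⟩ := hz
      have hp : IsPGroup p E' := by
        rw [hg]
        exact hEp.map _
      have hnE : ¬ E' ≤ R := by
        intro hle
        apply hER
        intro y hy
        have h6 : g * y * g⁻¹ ∈ R := hle (by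
          rw [hg, mem_cjS]
          have h7 : g⁻¹ * (g * y * g⁻¹) * g = y := by group
          rw [h7]
          exact hy)
        have h8 : g ∈ nz R := by rw [hnR]; exact Subgroup.mem_top g
        exact (Subgroup.mem_normalizer_iff.1 h8 y).2 h6
      have h9 := ZTM_toggle p hNTG hFNO R E'
        (fun K => (Nat.card K : ℤ) * (ls p K (BQ p κ M (⊤ : Subgroup G) K E' χ) : ℤ)) hR hnR hp hnE
        (fun K hK => by
          by_contra hne
          have : lQ p κ M (⊤ : Subgroup G) K E' χ ≠ 0 := fun h0 => hne (by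
            rw [← hint E' K] at h0
            have h10 : ls p K (BQ p κ M (⊤ : Subgroup G) K E' χ) = 0 := by exact_mod_cast h0
            show (Nat.card K : ℤ) * (ls p K (BQ p κ M (⊤ : Subgroup G) K E' χ) : ℤ) = 0
            rw [h10]
            simp)
          exact hK (hle E' K this))
      have h11 : ∀ K : Subgroup G, (((Nat.card K : ℤ) * (ls p K (BQ p κ M (⊤ : Subgroup G) K E' χ) : ℤ) : ℤ) : ℂ) =
          (Nat.card K : ℂ) * lQ p κ M (⊤ : Subgroup G) K E' χ := by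
        intro K
        rw [← hint E' K]
        push_cast
        rfl
      simpa only [h11] using h9
    · have h5 : ∀ N : Subgroup G, (∀ φ ∈ IrrOn N, ∀ (Q : Subgroup G) (y : G), DefL p M N φ Q y → cz Q ≤ N) →
          lQ p κ M (⊤ : Subgroup G) (N ⊓ nz E') E' χ = 0 := by
        intro N hN
        by_contra h0
        obtain ⟨η, hη⟩ := hne _ _ h0
        exact hz (hZTP p κ M hM G χ hχ D x hD hK N hN E' η hη)
      have h6 : lQ p κ M (⊤ : Subgroup G) (nz E') E' χ = 0 := by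
        have := h5 ⊤ (fun _ _ _ _ _ => le_top)
        rwa [top_inf_eq] at this
      rw [h6, mul_zero, neg_zero]
      rw [finsum_mem_congr rfl (g := fun _ => (0 : ℂ))]
      · simp
      · intro C hC
        rw [h5 (nrm C) (hZTL p M hM G R C hC.1)]
        simp
  have h3 := hZTC p κ M hM G ⊤ χ hχ' D x hD hK
  simp only [top_inf_eq, Subgroup.card_top] at h3
  rw [← h3, ← finsum_neg_distrib]
  have h4 : ∑ᶠ C ∈ {C : Finset (Subgroup G) | NCh p ⊤ R C ∧ C ≠ {R}}, (-1 : ℂ) ^ (C.card + 1) *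
      ∑ᶠ E' : Subgroup G, (Nat.card (nrm C ⊓ nz E' : Subgroup G) : ℂ) *
        lQ p κ M (⊤ : Subgroup G) (nrm C ⊓ nz E') E' χ =
      ∑ᶠ C ∈ {C : Finset (Subgroup G) | NCh p ⊤ R C ∧ C ≠ {R}}, ∑ᶠ E' : Subgroup G,
        (-1 : ℂ) ^ (C.card + 1) * ((Nat.card (nrm C ⊓ nz E' : Subgroup G) : ℂ) *
        lQ p κ M (⊤ : Subgroup G) (nrm C ⊓ nz E') E' χ) :=
    finsum_mem_congr rfl fun C _ => mul_finsum _ _
  rw [h4, ZTM_comm]
  exact finsum_congr fun E' => h2 E'

end Pool.Agent.ZB
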